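import Pool.Agent.ZGO.StmtsB

/-!
# ZGO, row CYC: the filtration with a period
-/

set_option autoImplicit false

namespace Pool.Agent.ZGO.H17

/-- the iterates of an additive map as an additive map -/
lemma itA {X : Type} [AddCommGroup X] (θ : X →+ X) (n : ℕ) :
    ∃ τ : X →+ X, ∀ x, τ x = (⇑θ)^[n] x :=
  ⟨{ toFun := (⇑θ)^[n]
     map_zero' := iterate_map_zero θ n
     map_add' := iterate_map_add θ n }, fun _ => rfl⟩

/-- the iterates of an endomorphism as an endomorphism -/
lemma itM {P : Type} [Group P] (ψ : P →* P) (n : ℕ) :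
    ∃ φ : P →* P, ∀ g, φ g = (⇑ψ)^[n] g :=
  ⟨{ toFun := (⇑ψ)^[n]
     map_one' := iterate_map_one ψ n
     map_mul' := iterate_map_mul ψ n }, fun _ => rfl⟩

theorem cyc (hRET : RetStmt) (hJFI : JfiStmt) (hJTI : JtiStmt) (hFNK : FnkStmt) : CycStmt := by
  intro P _ _ p ψ X _ θ ρ hU
  obtain ⟨Q, m, c, hm, hc, hQf, hQs, hQ⟩ := hRET P p ψ X θ ρ hU
  obtain ⟨j1, j2, j3, j4, j5, j6, j7⟩ := hJFI P p ψ X θ ρ hU
  obtain ⟨f1, f2, f3⟩ := hFNK P ψ X θ ρ hU.sim.shf
  have hJ := hJTI P p ψ X θ ρ hU
  obtain ⟨F, hF⟩ : ∃ F : ℕ → AddSubgroup X, ∀ i, F i = (Jo ρ)^[i] Q := ⟨_, fun _ => rfl⟩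
  have hF0 : F 0 = Q := by rw [hF]; rfl
  have hFs : ∀ i, F (i + 1) = Jo ρ (F i) := by
    intro i
    rw [hF, hF, Function.iterate_succ_apply']
  have stb : ∀ i g, ∀ x ∈ F i, ρ g x ∈ F i := by
    intro i
    induction i with
    | zero => rw [hF0]; exact hQs
    | succ i ih => rw [hFs]; exact j4 (F i) ih
  have mono : ∀ i, F i ≤ F (i + 1) := by
    intro i
    rw [hFs]
    exact j3 (F i) (stb i)
  have fmono : ∀ i i', i ≤ i' → F i ≤ F i' := fun i i' h => monotone_nat_of_le_succ mono h
  have fin : ∀ i, (F i : Set X).Finite := by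
    intro i
    induction i with
    | zero => rw [hF0]; exact hQf
    | succ i ih => rw [hFs]; exact j2 (F i) ih
  have shm : ∀ i x, x ∈ F (i + m) ↔ (⇑θ)^[c] x ∈ F i := by
    intro i x
    rw [hF, hF, Function.iterate_add_apply]
    exact hJ c Q ((Jo ρ)^[m] Q) hQ i x
  have shk : ∀ k i x, x ∈ F (i + k * m) ↔ (⇑θ)^[k * c] x ∈ F i := by
    intro k
    induction k with
    | zero => intro i x; simp
    | succ k ih =>
      intro i x
      have h1 : i + (k + 1) * m = (i + k * m) + m := by ring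
      have h2 : (k + 1) * c = k * c + c := by ring
      rw [h1, h2, shm, ih, Function.iterate_add_apply]
  have hz : ∀ (a b : ℕ) (x : X), a ≤ b → (⇑θ)^[a] x = 0 → (⇑θ)^[b] x = 0 := by
    intro a b x hab h
    obtain ⟨d, rfl⟩ := Nat.exists_eq_add_of_le hab
    rw [Nat.add_comm, Function.iterate_add_apply, h]
    exact iterate_map_zero θ d
  have ne : ∃ x ∈ F 1, x ∉ F 0 := by
    by_contra hcon
    push Not at hcon
    have hle : ∀ i, F i ≤ F 0 := by
      intro i
      induction i with
      | zero => exact le_rfl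
      | succ i ih =>
        rw [hFs]
        refine (j1 _ _ ih).trans ?_
        rw [← hFs]
        exact fun x hx => hcon x hx
    obtain ⟨a, x, hx, hn⟩ := j6 (F 0) (fin 0)
    apply hn
    apply hle (0 + a * m)
    rw [shk]
    rw [hz a (a * c) x (Nat.le_mul_of_pos_right a hc) hx]
    exact (F 0).zero_mem
  obtain ⟨I, hI⟩ : ∃ I : ℕ, ∀ x ∈ F (m + 1), (⇑θ)^[I] x = 0 := by
    choose nn hnn using hU.sim.shf.nil
    refine ⟨(fin (m + 1)).toFinset.sup nn, ?_⟩
    intro x hx
    refine hz (nn x) _ x ?_ (hnn x)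
    apply Finset.le_sup (f := nn)
    rw [Set.Finite.mem_toFinset]
    exact hx
  obtain ⟨e, he, hper⟩ := hU.per I
  obtain ⟨τ, hτ⟩ := itA θ (e * c)
  obtain ⟨φ, hφ⟩ := itM ψ (e * c)
  have per1 : ∀ g i, ∀ x ∈ F (i + 2), ρ ((⇑ψ)^[e] g) x - ρ g x ∈ F i := by
    intro g i x hx
    have hi : i = i % m + (i / m) * m := by
      rw [Nat.mul_comm]
      exact (Nat.mod_add_div i m).symm
    have hlt : i % m < m := Nat.mod_lt _ hm
    generalize i % m = i0 at hi hlt
    generalize i / m = k at hi
    subst hi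
    have h1 : i0 + k * m + 2 = (i0 + 2) + k * m := by ring
    rw [h1, shk] at hx
    have h2 : (⇑θ)^[k * c] x ∈ F (m + 1) := fmono (i0 + 2) (m + 1) (by omega) hx
    have h3 : (⇑θ)^[I + k * c] x = 0 := by
      rw [Function.iterate_add_apply]
      exact hI _ h2
    rw [shk, hper g (k * c) x h3]
    exact (F i0).zero_mem
  have per2 : ∀ (l : ℕ) g i, ∀ x ∈ F (i + 2), ρ ((⇑ψ)^[e * l] g) x - ρ g x ∈ F i := by
    intro l
    induction l with
    | zero =>
      intro g i x _
      simp
    | succ l ih =>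
      intro g i x hx
      have h1 : e * (l + 1) = e + e * l := by ring
      rw [h1, Function.iterate_add_apply]
      have h2 := (F i).add_mem (per1 ((⇑ψ)^[e * l] g) i x hx) (ih g i x hx)
      rwa [sub_add_sub_cancel] at h2
  refine ⟨φ, τ, F, e * m, ?_⟩
  exact
    { prm := hU.prm
      exp := hU.exp
      pos := Nat.mul_pos he hm
      sur := by
        intro y
        obtain ⟨x, hx⟩ := (hU.sim.sur.iterate (e * c)) y
        exact ⟨x, by rw [hτ, hx]⟩
      eqv := by
        intro g x
        rw [hτ, hφ, hτ]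
        exact f2 (e * c) g x
      mono := mono
      fin := fin
      ne := ne
      stb := fun g i x hx => stb i g x hx
      act := by
        intro g i x hx
        rw [hFs] at hx
        exact hx g
      sht := by
        intro i x
        rw [hτ]
        exact shk e i x
      per := by
        intro g i x hx
        rw [hφ]
        exact per2 c g i x hx
      det := by
        intro i x hx
        rw [hFs] at hx
        by_contra hcon
        push Not at hcon
        exact hx hcon }

end Pool.Agent.ZGO.H17
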